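import Mathlib
import Pool.Agent.H1.CM.Targets2

/-!
# PRES: presentation of the chart rings
-/

namespace Pool.Agent.H1.CM

open MvPolynomial

namespace PRES

section

variable {k C : Type} [Field k] [CommRing C]

/-- The index of `T₀^a T₁^b e_t` on the chart `r`. -/
def phi (r : Fin 3) (s : ℕ × ℕ × Fin 4) : Idx :=
  (![-(s.1 : ℤ) - (s.2.1 : ℤ) - dg s.2.2, (s.1 : ℤ), (s.1 : ℤ)] r,
    ![(s.1 : ℤ), -(s.1 : ℤ) - (s.2.1 : ℤ) - dg s.2.2, (s.2.1 : ℤ)] r, s.2.2)

lemma phi_inj (r : Fin 3) : Function.Injective (phi r) := by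
  rintro ⟨a, b, t⟩ ⟨a', b', t'⟩ h
  simp only [phi, Prod.mk.injEq] at h
  obtain ⟨h1, h2, rfl⟩ := h
  fin_cases r
  · simp at h1 h2
    subst h2
    have : b = b' := by omega
    rw [this]
  · simp at h1 h2
    subst h1
    have : b = b' := by omega
    rw [this]
  · simp at h1 h2
    subst h1
    subst h2
    rfl

lemma phi_mem (r : Fin 3) (s : ℕ × ℕ × Fin 4) : phi r s ∈ reg {r} := by
  obtain ⟨a, b, t⟩ := s
  intro r' hr'
  simp only [Finset.mem_singleton] at hr'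
  simp only [phi, expo]
  fin_cases r <;> fin_cases r' <;> simp at hr' ⊢ <;> omega

lemma phi_surj (r : Fin 3) (s : Idx) (hs : s ∈ reg {r}) : ∃ s', phi r s' = s := by
  obtain ⟨i, j, t⟩ := s
  have h : ∀ r', r' ≠ r → 0 ≤ expo (i, j, t) r' := fun r' hr' => hs r' (by simpa using hr')
  simp only [expo] at h
  fin_cases r
  · have h1 := h 1 (by decide)
    have h2 := h 2 (by decide)
    simp at h1 h2
    refine ⟨(j.toNat, (-i - j - dg t).toNat, t), ?_⟩
    simp only [phi, Prod.mk.injEq]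
    refine ⟨?_, ?_, trivial⟩ <;> simp <;> omega
  · have h1 := h 0 (by decide)
    have h2 := h 2 (by decide)
    simp at h1 h2
    refine ⟨(i.toNat, (-i - j - dg t).toNat, t), ?_⟩
    simp only [phi, Prod.mk.injEq]
    refine ⟨?_, ?_, trivial⟩ <;> simp <;> omega
  · have h1 := h 0 (by decide)
    have h2 := h 1 (by decide)
    simp at h1 h2
    refine ⟨(i.toNat, j.toNat, t), ?_⟩
    simp only [phi, Prod.mk.injEq]
    refine ⟨?_, ?_, trivial⟩ <;> simp <;> omega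

/-- `e = (1, T₂, T₃, T₂ T₃)`. -/
def eT (T : Fin 4 → C) : Fin 4 → C := ![1, T 2, T 3, T 2 * T 3]

lemma zpow_aux (X : Cˣ) (a b d : ℕ) :
    ((X ^ (-(a : ℤ) - (b : ℤ) - (d : ℤ)) : Cˣ) : C)
      = ((X⁻¹ : Cˣ) : C) ^ a * ((X⁻¹ : Cˣ) : C) ^ b * ((X⁻¹ : Cˣ) : C) ^ d := by
  have : (X ^ (-(a : ℤ) - (b : ℤ) - (d : ℤ)) : Cˣ) = X⁻¹ ^ a * X⁻¹ ^ b * X⁻¹ ^ d := by
    rw [zpow_sub, zpow_sub, zpow_neg, zpow_natCast, zpow_natCast, zpow_natCast]
    simp [inv_pow]
  rw [this]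
  simp

lemma dg_eq (t : Fin 4) : dg t = (dgN t : ℤ) := by
  fin_cases t <;> rfl

lemma mon_phi (q : Quad C) (r : Fin 3) (a b : ℕ) (t : Fin 4) :
    q.mon (phi r (a, b, t)) = (q.chart r 0) ^ a * (q.chart r 1) ^ b * eT (q.chart r) t := by
  have hX : (q.X : C) * ((q.X⁻¹ : Cˣ) : C) = 1 := by simp
  have hY : (q.Y : C) * ((q.Y⁻¹ : Cˣ) : C) = 1 := by simp
  unfold Quad.mon phi
  simp only [dg_eq]
  fin_cases r
  · simp only [Fin.zero_eta, Matrix.cons_val_zero, Fin.isValue]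
    rw [zpow_aux, zpow_natCast]
    fin_cases t <;> simp [Quad.chart, eT, Quad.e, dgN, mul_pow] <;> ring
  · simp only [Fin.mk_one, Matrix.cons_val_one, Fin.isValue, Matrix.cons_val_zero]
    rw [zpow_aux, zpow_natCast]
    fin_cases t <;> simp [Quad.chart, eT, Quad.e, dgN, mul_pow] <;> ring
  · simp only [Fin.reduceFinMk, Matrix.cons_val, Fin.isValue]
    rw [zpow_natCast, zpow_natCast]
    fin_cases t <;> simp [Quad.chart, eT, Quad.e]

/-- Polynomials in normal form. -/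
noncomputable def nf (P : Fin 4 → MvPolynomial (Fin 2) k) : MvPolynomial (Fin 4) k :=
  ∑ t, rename ![0, 1] (P t) * eT X t

lemma nf_eq (P : Fin 4 → MvPolynomial (Fin 2) k) :
    nf P = rename ![0, 1] (P 0) + rename ![0, 1] (P 1) * X 2 + rename ![0, 1] (P 2) * X 3
      + rename ![0, 1] (P 3) * (X 2 * X 3) := by
  simp [nf, Fin.sum_univ_four, eT]

/-- The ideal of two equations in normal form. -/
noncomputable def eq1 (u v : MvPolynomial (Fin 2) k) : MvPolynomial (Fin 4) k :=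
  X 2 ^ 2 + rename ![0, 1] u * X 2 + rename ![0, 1] v

/-- The second equation. -/
noncomputable def eq2 (b c e : MvPolynomial (Fin 2) k) : MvPolynomial (Fin 4) k :=
  X 3 ^ 2 + rename ![0, 1] b * X 3 + rename ![0, 1] c * X 2 ^ 2 + rename ![0, 1] e

lemma exists_nf (u v b c e : MvPolynomial (Fin 2) k) (p : MvPolynomial (Fin 4) k) :
    ∃ P : Fin 4 → MvPolynomial (Fin 2) k, p - nf P ∈ Ideal.span {eq1 u v, eq2 b c e} := by
  have hG1 : eq1 u v ∈ Ideal.span {eq1 u v, eq2 b c e} := Ideal.subset_span (by simp)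
  have hG2 : eq2 b c e ∈ Ideal.span {eq1 u v, eq2 b c e} := Ideal.subset_span (by simp)
  induction p using MvPolynomial.induction_on with
  | C a =>
    refine ⟨![C a, 0, 0, 0], ?_⟩
    rw [nf_eq]
    simp
  | add p p' hp hp' =>
    obtain ⟨P, hP⟩ := hp
    obtain ⟨P', hP'⟩ := hp'
    refine ⟨P + P', ?_⟩
    have : p + p' - nf (P + P') = (p - nf P) + (p' - nf P') := by
      simp only [nf_eq, Pi.add_apply, map_add]
      ring
    rw [this]
    exact Ideal.add_mem _ hP hP'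
  | mul_X p i hp =>
    obtain ⟨P, hP⟩ := hp
    have key : ∀ P' : Fin 4 → MvPolynomial (Fin 2) k,
        (∃ α β : MvPolynomial (Fin 4) k, nf P * X i - nf P' = α * eq1 u v + β * eq2 b c e) →
        ∃ P : Fin 4 → MvPolynomial (Fin 2) k,
          p * X i - nf P ∈ Ideal.span {eq1 u v, eq2 b c e} := by
      rintro P' ⟨α, β, h⟩
      refine ⟨P', ?_⟩
      have : p * X i - nf P' = (p - nf P) * X i + (α * eq1 u v + β * eq2 b c e) := by
        rw [← h]; ring
      rw [this]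
      exact Ideal.add_mem _ (Ideal.mul_mem_right _ _ hP)
        (Ideal.add_mem _ (Ideal.mul_mem_left _ _ hG1) (Ideal.mul_mem_left _ _ hG2))
    fin_cases i
    · refine key (fun t => P t * X 0) ⟨0, 0, ?_⟩
      simp only [nf_eq, map_mul, rename_X]
      simp
      ring
    · refine key (fun t => P t * X 1) ⟨0, 0, ?_⟩
      simp only [nf_eq, map_mul, rename_X]
      simp
      ring
    · refine key ![-(P 1 * v), P 0 - P 1 * u, -(P 3 * v), P 2 - P 3 * u]
        ⟨rename ![0, 1] (P 1) + rename ![0, 1] (P 3) * X 3, 0, ?_⟩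
      simp only [nf_eq, eq1, eq2]
      simp
      ring
    · refine key ![P 2 * (c * v - e) - P 3 * c * u * v,
          P 2 * c * u + P 3 * (c * v - e) - P 3 * c * u * u, P 0 - P 2 * b, P 1 - P 3 * b]
        ⟨-(rename ![0, 1] (P 2) * rename ![0, 1] c) - rename ![0, 1] (P 3) * rename ![0, 1] c * X 2
          + rename ![0, 1] (P 3) * rename ![0, 1] c * rename ![0, 1] u,
          rename ![0, 1] (P 2) + rename ![0, 1] (P 3) * X 2, ?_⟩
      simp only [nf_eq, eq1, eq2]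
      simp
      ring

/-- The coefficients of the value of a normal form. -/
noncomputable def cfs (r : Fin 3) (P : Fin 4 → MvPolynomial (Fin 2) k) : Idx →₀ k :=
  ∑ t, ∑ m ∈ (P t).support, Finsupp.single (phi r (m 0, m 1, t)) (coeff m (P t))

lemma eval_nf (ι : k →+* C) (q : Quad C) (r : Fin 3) (P : Fin 4 → MvPolynomial (Fin 2) k) :
    eval₂ ι (q.chart r) (nf P) = comb ι q.mon (cfs r P) := by
  unfold nf cfs
  rw [comb_sum, eval₂_sum]
  refine Finset.sum_congr rfl fun t _ => ?_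
  rw [comb_sum, eval₂_mul, eval₂_rename]
  have h1 : eval₂ ι (q.chart r) (eT X t) = eT (q.chart r) t := by
    fin_cases t <;> simp [eT]
  rw [h1, eval₂_eq, Finset.sum_mul]
  refine Finset.sum_congr rfl fun m _ => ?_
  rw [comb_single, mon_phi]
  have h2 : ∏ i ∈ m.support, (q.chart r ∘ ![0, 1]) i ^ m i
      = q.chart r 0 ^ m 0 * q.chart r 1 ^ m 1 := by
    have h3 := Finset.prod_subset (Finset.subset_univ m.support)
      (f := fun i => (q.chart r ∘ ![0, 1]) i ^ m i)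
      (fun i _ hi => by rw [Finsupp.notMem_support_iff.mp hi, pow_zero])
    rw [h3]
    exact Fin.prod_univ_two _
  rw [h2]
  ring

lemma cfs_apply (r : Fin 3) (P : Fin 4 → MvPolynomial (Fin 2) k) (m : Fin 2 →₀ ℕ) (t : Fin 4) :
    cfs r P (phi r (m 0, m 1, t)) = coeff m (P t) := by
  classical
  unfold cfs
  rw [Finsupp.finsetSum_apply, Finset.sum_eq_single t]
  · rw [Finsupp.finsetSum_apply]
    by_cases hm : m ∈ (P t).support
    · rw [Finset.sum_eq_single m]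
      · simp
      · intro m' _ hm'
        rw [Finsupp.single_apply, if_neg]
        intro h
        apply hm'
        have := phi_inj r h
        simp only [Prod.mk.injEq] at this
        ext i
        fin_cases i
        · exact this.1
        · exact this.2.1
      · intro h; exact absurd hm h
    · rw [notMem_support_iff.mp hm]
      refine Finset.sum_eq_zero fun m' hm' => ?_
      rw [Finsupp.single_apply, if_neg]
      intro h
      have := phi_inj r h
      simp only [Prod.mk.injEq] at this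
      apply hm
      have : m' = m := by
        ext i
        fin_cases i
        · exact this.1
        · exact this.2.1
      rw [← this]
      exact hm'
  · intro t' _ ht'
    rw [Finsupp.finsetSum_apply]
    refine Finset.sum_eq_zero fun m' _ => ?_
    rw [Finsupp.single_apply, if_neg]
    intro h
    have := phi_inj r h
    simp only [Prod.mk.injEq] at this
    exact ht' this.2.2
  · intro h; exact absurd (Finset.mem_univ t) h

lemma G_eq (r : Fin 3) : ∃ u v b c e : MvPolynomial (Fin 2) k,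
    G1 k r = eq1 u v ∧ G2 k r = eq2 b c e := by
  fin_cases r
  · refine ⟨X 0, X 1 + X 0 ^ 3 * X 1 + X 1 ^ 3 + X 0 * X 1 ^ 3, 1 + X 0 ^ 5, X 0 ^ 3,
      X 1 ^ 9 + 1, ?_, ?_⟩
    · simp [G1, eq1]
    · simp [G2, eq2]
      ring
  · refine ⟨X 0, X 0 ^ 3 * X 1 + X 1 + X 0 * X 1 ^ 3 + X 1 ^ 3, X 0 ^ 5 + 1, X 0 ^ 3,
      X 0 * X 1 ^ 9 + X 0 ^ 10, ?_, ?_⟩
    · simp [G1, eq1]
    · simp [G2, eq2]
      ring
  · refine ⟨X 0 * X 1, X 0 ^ 3 + X 1 ^ 3 + X 0 + X 1, X 0 ^ 5 + X 1 ^ 5, X 0 ^ 3 * X 1 ^ 3,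
      X 0 + X 0 ^ 10, ?_, ?_⟩
    · simp [G1, eq1]
    · simp [G2, eq2]
      ring

lemma alg0 (X Y x n w : C) (h2 : (2 : C) = 0) (hX : X * x = 1)
    (r1 : n ^ 2 + X * Y * n + (X ^ 3 + Y ^ 3 + X + Y) = 0)
    (r2 : w ^ 2 + (X ^ 5 + Y ^ 5) * w + (X + X ^ 10 + X ^ 3 * Y ^ 3 * (X ^ 3 + Y ^ 3 + X + Y)
      + X ^ 4 * Y ^ 4 * n) = 0) :
    (n * x ^ 2) ^ 2 + Y * x * (n * x ^ 2) + (x + (Y * x) ^ 3 * x + x ^ 3 + Y * x * x ^ 3) = 0 ∧
    (w * x ^ 5) ^ 2 + (1 + (Y * x) ^ 5) * (w * x ^ 5) + (Y * x) ^ 3 * (n * x ^ 2) ^ 2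
      + x ^ 9 + 1 = 0 := by
  constructor
  · linear_combination x ^ 4 * r1
        - (Y * n * x ^ 3 + x * (1 + X * x + X ^ 2 * x ^ 2) + x ^ 3) * hX
  · linear_combination x ^ 10 * r2 - X ^ 3 * Y ^ 3 * x ^ 10 * r1
        + X ^ 3 * x ^ 3 * Y ^ 3 * x ^ 7 * n ^ 2 * h2
        - (w * x ^ 5 * (1 + X * x + X ^ 2 * x ^ 2 + X ^ 3 * x ^ 3 + X ^ 4 * x ^ 4)
          + x ^ 9 + (1 + X * x + X ^ 2 * x ^ 2 + X ^ 3 * x ^ 3 + X ^ 4 * x ^ 4
            + X ^ 5 * x ^ 5 + X ^ 6 * x ^ 6 + X ^ 7 * x ^ 7 + X ^ 8 * x ^ 8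
            + X ^ 9 * x ^ 9)
          + Y ^ 3 * x ^ 7 * n ^ 2 * (1 + X * x + X ^ 2 * x ^ 2)) * hX

lemma alg1 (X Y y n w : C) (h2 : (2 : C) = 0) (hY : Y * y = 1)
    (r1 : n ^ 2 + X * Y * n + (X ^ 3 + Y ^ 3 + X + Y) = 0)
    (r2 : w ^ 2 + (X ^ 5 + Y ^ 5) * w + (X + X ^ 10 + X ^ 3 * Y ^ 3 * (X ^ 3 + Y ^ 3 + X + Y)
      + X ^ 4 * Y ^ 4 * n) = 0) :
    (n * y ^ 2) ^ 2 + X * y * (n * y ^ 2) + ((X * y) ^ 3 * y + y + X * y * y ^ 3 + y ^ 3) = 0 ∧
    (w * y ^ 5) ^ 2 + ((X * y) ^ 5 + 1) * (w * y ^ 5) + (X * y) ^ 3 * (n * y ^ 2) ^ 2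
      + X * y * y ^ 9 + (X * y) ^ 10 = 0 := by
  constructor
  · linear_combination y ^ 4 * r1
        - (X * n * y ^ 3 + y * (1 + Y * y + Y ^ 2 * y ^ 2) + y ^ 3) * hY
  · linear_combination y ^ 10 * r2 - X ^ 3 * Y ^ 3 * y ^ 10 * r1
        + Y ^ 3 * y ^ 3 * X ^ 3 * y ^ 7 * n ^ 2 * h2
        - (w * y ^ 5 * (1 + Y * y + Y ^ 2 * y ^ 2 + Y ^ 3 * y ^ 3 + Y ^ 4 * y ^ 4)
          + X ^ 3 * y ^ 7 * n ^ 2 * (1 + Y * y + Y ^ 2 * y ^ 2)) * hY

lemma eval_G (ι : k →+* C) (q : Quad C) (h2 : (2 : k) = 0) (hq : q.Rel ι (std 0)) (r : Fin 3) :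
    eval₂ ι (q.chart r) (G1 k r) = 0 ∧ eval₂ ι (q.chart r) (G2 k r) = 0 := by
  have h2C : (2 : C) = 0 := by
    have := congrArg ι h2
    rwa [map_ofNat, map_zero] at this
  have hX : (q.X : C) * ((q.X⁻¹ : Cˣ) : C) = 1 := by simp
  have hY : (q.Y : C) * ((q.Y⁻¹ : Cˣ) : C) = 1 := by simp
  have r1 := hq.r1
  have r2 := hq.r2
  simp [std, Quad.ev, Quad.vec, cStd, eStd] at r1 r2
  have k0 := alg0 _ _ _ _ _ h2C hX r1 r2
  have k1 := alg1 _ _ _ _ _ h2C hY r1 r2
  fin_cases r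
  · constructor
    · have := k0.1
      simpa [Quad.chart, G1] using this
    · have := k0.2
      simpa [Quad.chart, G2] using this
  · constructor
    · have := k1.1
      simpa [Quad.chart, G1] using this
    · have := k1.2
      simpa [Quad.chart, G2] using this
  · constructor
    · simp [Quad.chart, G1]
      linear_combination r1
    · simp [Quad.chart, G2]
      linear_combination r2 - q.X ^ 3 * q.Y ^ 3 * r1 + q.X ^ 3 * q.Y ^ 3 * q.n ^ 2 * h2C

lemma chart_mon (q : Quad C) (r : Fin 3) (i : Fin 4) : ∃ s ∈ reg {r}, q.chart r i = q.mon s := by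
  have h := mon_phi q r
  fin_cases i
  · exact ⟨phi r (1, 0, 0), phi_mem r _, by rw [h]; simp [eT]⟩
  · exact ⟨phi r (0, 1, 0), phi_mem r _, by rw [h]; simp [eT]⟩
  · exact ⟨phi r (0, 0, 1), phi_mem r _, by rw [h]; simp [eT]⟩
  · exact ⟨phi r (0, 0, 2), phi_mem r _, by rw [h]; simp [eT]⟩

lemma mem_iff (ι : k →+* C) (q : Quad C) (B : Finset (Fin 3) → Subring C)
    (hF : Frame ι q.mon B) (r : Fin 3) (c : C) :
    c ∈ B {r} ↔ ∃ p, c = MvPolynomial.eval₂ ι (q.chart r) p := by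
  have hm := hF.mem {r} (Finset.singleton_nonempty r)
  have hmon : ∀ s ∈ reg {r}, q.mon s ∈ B {r} := fun s hs => by
    rw [hm]
    refine ⟨Finsupp.single s 1, ?_, by simp [comb_single]⟩
    intro t ht
    have := Finsupp.support_single_subset ht
    rw [Finset.mem_singleton] at this
    rw [this]
    exact hs
  constructor
  · intro hc
    obtain ⟨g, hg, rfl⟩ := (hm c).mp hc
    have : ∀ s ∈ g.support, ∃ p : MvPolynomial (Fin 4) k,
        q.mon s = MvPolynomial.eval₂ ι (q.chart r) p := by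
      intro s hs
      obtain ⟨⟨a, b, t⟩, hs'⟩ := phi_surj r s (hg s hs)
      refine ⟨X 0 ^ a * X 1 ^ b * eT X t, ?_⟩
      rw [← hs', mon_phi]
      have h1 : eval₂ ι (q.chart r) (eT X t) = eT (q.chart r) t := by
        fin_cases t <;> simp [eT]
      rw [eval₂_mul, h1, eval₂_mul, eval₂_pow, eval₂_pow, eval₂_X, eval₂_X]
    choose! P hP using this
    refine ⟨∑ s ∈ g.support, MvPolynomial.C (g s) * P s, ?_⟩
    rw [eval₂_sum]
    unfold comb
    refine Finset.sum_congr rfl fun s hs => ?_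
    rw [eval₂_mul, eval₂_C, ← hP s hs]
  · rintro ⟨p, rfl⟩
    induction p using MvPolynomial.induction_on with
    | C a =>
      rw [eval₂_C]
      have h0 : ((0, 0, 0) : Idx) ∈ reg {r} := by
        have := phi_mem r (0, 0, 0)
        have h1 : phi r (0, 0, 0) = (0, 0, 0) := by
          fin_cases r <;> simp [phi, dg]
        rwa [h1] at this
      rw [hm]
      refine ⟨Finsupp.single (0, 0, 0) a, ?_, by rw [comb_single, Quad.mon_zero, mul_one]⟩
      intro t ht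
      have := Finsupp.support_single_subset ht
      rw [Finset.mem_singleton] at this
      rw [this]
      exact h0
    | add p p' hp hp' =>
      rw [eval₂_add]
      exact (B {r}).add_mem hp hp'
    | mul_X p i hp =>
      rw [eval₂_mul, eval₂_X]
      obtain ⟨s, hs, h⟩ := chart_mon q r i
      rw [h]
      exact (B {r}).mul_mem hp (hmon s hs)

lemma ker_iff (ι : k →+* C) (q : Quad C) (h2 : (2 : k) = 0)
    (hF : Function.Injective (comb ι q.mon)) (hq : q.Rel ι (std 0)) (r : Fin 3)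
    (p : MvPolynomial (Fin 4) k) : MvPolynomial.eval₂ ι (q.chart r) p = 0 ↔
      p ∈ Ideal.span {G1 k r, G2 k r} := by
  have hle : ∀ p ∈ Ideal.span {G1 k r, G2 k r}, MvPolynomial.eval₂ ι (q.chart r) p = 0 := by
    intro p hp
    have h1 : Ideal.span {G1 k r, G2 k r} ≤ RingHom.ker (eval₂Hom ι (q.chart r)) := by
      rw [Ideal.span_le]
      rintro _ (rfl | rfl)
      · exact (eval_G ι q h2 hq r).1
      · exact (eval_G ι q h2 hq r).2
    exact h1 hp
  refine ⟨fun hp => ?_, hle p⟩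
  obtain ⟨u, v, b, c, e, hG1, hG2⟩ := G_eq (k := k) r
  obtain ⟨P, hP⟩ := exists_nf u v b c e p
  rw [← hG1, ← hG2] at hP
  have h1 := hle _ hP
  have h3 : eval₂ ι (q.chart r) (nf P) = 0 := by
    have h4 : eval₂ ι (q.chart r) (p - nf P)
      = eval₂ ι (q.chart r) p - eval₂ ι (q.chart r) (nf P) := eval₂_sub ..
    rw [h1, hp] at h4
    simpa using h4.symm
  rw [eval_nf] at h3
  have h5 : cfs r P = 0 := hF (by rw [h3, comb_zero])
  have h6 : ∀ t, P t = 0 := by
    intro t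
    ext m
    rw [← cfs_apply r P m t, h5]
    simp
  have h7 : nf P = 0 := by
    rw [nf_eq, h6, h6, h6, h6]
    simp
  rw [h7, sub_zero] at hP
  exact hP

end

end PRES

/-- Presentation of the chart rings. -/
theorem pres : T_PRES := by
  intro k C _ _ ι q B h2 hF hq r
  exact ⟨PRES.mem_iff ι q B hF r, PRES.ker_iff ι q h2 hF.bij.1 hq r⟩

end Pool.Agent.H1.CM
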