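import Mathlib
import Pool.Agent.H1.CM.Targets2
import Pool.Agent.H24.CMX.PRES

/-!
# ETA: the 2-form `η` and the residue formulas on the three charts
-/

namespace Pool.Agent.H1.CM

open MvPolynomial
open scoped TensorProduct IntermediateField

namespace ETA

section basis

variable {k K : Type} [Field k] [Field K] [Algebra k K]

/-- `(X, Y)`. -/
def vv (q : Quad K) : Fin 2 → K := ![q.X, q.Y]

lemma inj_aeval (q : Quad K) (hF : Function.Injective (comb (algebraMap k K) q.mon)) :
    Function.Injective (aeval (vv q) : MvPolynomial (Fin 2) k →ₐ[k] K) := by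
  rw [injective_iff_map_eq_zero]
  intro p hp
  have h1 := PRES.eval_nf (algebraMap k K) q 2 ![p, 0, 0, 0]
  have h2 : PRES.nf ![p, 0, 0, 0] = rename ![0, 1] p := by
    rw [PRES.nf_eq]
    simp
  have h3 : q.chart 2 ∘ ![0, 1] = vv q := by
    funext i
    fin_cases i <;> simp [Quad.chart, vv]
  rw [h2, eval₂_rename, h3] at h1
  have h4 : comb (algebraMap k K) q.mon (PRES.cfs 2 ![p, 0, 0, 0]) = 0 := by
    rw [← h1]
    exact hp
  have h5 : PRES.cfs 2 ![p, 0, 0, 0] = 0 := hF (by rw [h4, comb_zero])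
  ext m
  have h6 := PRES.cfs_apply 2 ![p, 0, 0, 0] m 0
  rw [h5] at h6
  simpa using h6.symm

lemma sep_root {L E : Type} [Field L] [Field E] [Algebra L E] (h2 : (2 : L) = 0) (u v : L)
    (hu : u ≠ 0) (x : E) (hx : x ^ 2 + algebraMap L E u * x + algebraMap L E v = 0) :
    IsSeparable L x := by
  have hsep : (Polynomial.X ^ 2 + Polynomial.C u * Polynomial.X + Polynomial.C v :
      Polynomial L).Separable := by
    unfold Polynomial.Separable
    have h3 : Polynomial.derivative (Polynomial.X ^ 2 + Polynomial.C u * Polynomial.X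
        + Polynomial.C v : Polynomial L) = Polynomial.C u := by
      have h4 : (2 : Polynomial L) = 0 := by
        have := congrArg Polynomial.C h2
        rwa [map_ofNat, map_zero] at this
      simp [one_add_one_eq_two]
      first
        | exact h4
        | exact h2
    rw [h3]
    refine ⟨0, Polynomial.C u⁻¹, ?_⟩
    rw [← Polynomial.C_mul, inv_mul_cancel₀ hu]
    simp
  refine hsep.of_dvd (minpoly.dvd _ _ ?_)
  simpa using hx

lemma basis (q : Quad K) (h2 : (2 : k) = 0) (hF : FFM (algebraMap k K) q)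
    (hXY : (q.X : K) ^ 5 + (q.Y : K) ^ 5 ≠ 0) :
    ∃ B : Module.Basis (Fin 2) K (Ω[K⁄k]), B 0 = KaehlerDifferential.D k K q.X ∧
      B 1 = KaehlerDifferential.D k K q.Y := by
  have r1 := hF.rel.r1
  have r2 := hF.rel.r2
  simp [std, Quad.ev, Quad.vec, cStd, eStd] at r1 r2
  let _ : Algebra (MvPolynomial (Fin 2) k) K :=
    (aeval (vv q) : MvPolynomial (Fin 2) k →ₐ[k] K).toRingHom.toAlgebra
  have hmap : ∀ p : MvPolynomial (Fin 2) k, algebraMap (MvPolynomial (Fin 2) k) K p
      = aeval (vv q) p := fun _ => rfl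
  have : IsScalarTower k (MvPolynomial (Fin 2) k) K := by
    refine IsScalarTower.of_algebraMap_eq fun x => ?_
    rw [hmap, MvPolynomial.algebraMap_eq, aeval_C]
  have : FaithfulSMul (MvPolynomial (Fin 2) k) K := by
    rw [faithfulSMul_iff_algebraMap_injective]
    exact inj_aeval q hF.inj
  let _ := FractionRing.liftAlgebra (MvPolynomial (Fin 2) k) K
  let L := FractionRing (MvPolynomial (Fin 2) k)
  have h2L : (2 : L) = 0 := by
    have := congrArg (algebraMap k L) h2
    rwa [map_ofNat, map_zero] at this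
  have hL : ∀ p : MvPolynomial (Fin 2) k, algebraMap L K (algebraMap _ L p) = aeval (vv q) p := by
    intro p
    rw [← IsScalarTower.algebraMap_apply, hmap]
  have hLinj : Function.Injective (algebraMap L K) := (algebraMap L K).injective
  have hsn : IsSeparable L q.n := by
    refine sep_root h2L (algebraMap (MvPolynomial (Fin 2) k) L (X 0 * X 1))
      (algebraMap (MvPolynomial (Fin 2) k) L (X 0 ^ 3 + X 1 ^ 3 + X 0 + X 1)) ?_ q.n ?_
    · intro h
      have h3 := congrArg (algebraMap L K) h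
      rw [hL, map_zero] at h3
      simp [vv] at h3
    · rw [hL, hL]
      simp [vv]
      exact r1
  have hE1 : Algebra.IsSeparable L L⟮q.n⟯ :=
    (IntermediateField.isSeparable_adjoin_simple_iff_isSeparable L K).mpr hsn
  have hn : q.n ∈ L⟮q.n⟯ := IntermediateField.mem_adjoin_simple_self L q.n
  have hsw : IsSeparable L⟮q.n⟯ q.w := by
    have hLE : ∀ p : MvPolynomial (Fin 2) k,
        algebraMap L⟮q.n⟯ K (algebraMap L L⟮q.n⟯ (algebraMap _ L p)) = aeval (vv q) p := by
      intro p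
      rw [← IsScalarTower.algebraMap_apply, hL]
    refine sep_root (L := L⟮q.n⟯) ?_ (algebraMap L L⟮q.n⟯ (algebraMap (MvPolynomial (Fin 2) k) L (X 0 ^ 5 + X 1 ^ 5)))
      (algebraMap L L⟮q.n⟯ (algebraMap (MvPolynomial (Fin 2) k) L (X 0 + X 0 ^ 10
        + X 0 ^ 3 * X 1 ^ 3 * (X 0 ^ 3 + X 1 ^ 3 + X 0 + X 1)))
        + algebraMap L L⟮q.n⟯ (algebraMap (MvPolynomial (Fin 2) k) L (X 0 ^ 4 * X 1 ^ 4)) * ⟨q.n, hn⟩) ?_ q.w ?_
    · have := congrArg (algebraMap L L⟮q.n⟯) h2L
      rwa [map_ofNat, map_zero] at this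
    · intro h
      have h3 := congrArg (algebraMap L⟮q.n⟯ K) h
      rw [hLE, map_zero] at h3
      simp [vv] at h3
      exact hXY h3
    · have h5 : algebraMap L⟮q.n⟯ K (algebraMap L L⟮q.n⟯ (algebraMap (MvPolynomial (Fin 2) k) L
          (X 0 + X 0 ^ 10 + X 0 ^ 3 * X 1 ^ 3 * (X 0 ^ 3 + X 1 ^ 3 + X 0 + X 1)))
        + algebraMap L L⟮q.n⟯ (algebraMap (MvPolynomial (Fin 2) k) L (X 0 ^ 4 * X 1 ^ 4))
          * ⟨q.n, hn⟩) = (q.X : K) + (q.X : K) ^ 10 + (q.X : K) ^ 3 * (q.Y : K) ^ 3
            * ((q.X : K) ^ 3 + (q.Y : K) ^ 3 + q.X + q.Y) + (q.X : K) ^ 4 * (q.Y : K) ^ 4 * q.n := by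
        rw [(algebraMap L⟮q.n⟯ K).map_add, (algebraMap L⟮q.n⟯ K).map_mul, hLE, hLE]
        simp [vv]
      rw [h5, hLE]
      simp only [vv, map_add, map_pow, aeval_X]
      exact r2
  have hE2 : Algebra.IsSeparable L⟮q.n⟯ K := by
    have htop : IntermediateField.adjoin L⟮q.n⟯ {q.w} = ⊤ := by
      rw [eq_top_iff]
      intro f _
      have hmem : ∀ g : Idx →₀ k, comb (algebraMap k K) q.mon g
          ∈ IntermediateField.adjoin L⟮q.n⟯ {q.w} := by
        intro g
        have hk : ∀ c : k, algebraMap k K c ∈ IntermediateField.adjoin L⟮q.n⟯ {q.w} := by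
          intro c
          have h4 := (IntermediateField.adjoin L⟮q.n⟯ {q.w}).algebraMap_mem
            (algebraMap L L⟮q.n⟯ (algebraMap (MvPolynomial (Fin 2) k) L (MvPolynomial.C c)))
          rwa [← IsScalarTower.algebraMap_apply, hL, aeval_C] at h4
        have hX : (q.X : K) ∈ IntermediateField.adjoin L⟮q.n⟯ {q.w} := by
          have h4 := (IntermediateField.adjoin L⟮q.n⟯ {q.w}).algebraMap_mem
            (algebraMap L L⟮q.n⟯ (algebraMap (MvPolynomial (Fin 2) k) L (X 0)))
          rwa [← IsScalarTower.algebraMap_apply, hL, aeval_X] at h4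
        have hY : (q.Y : K) ∈ IntermediateField.adjoin L⟮q.n⟯ {q.w} := by
          have h4 := (IntermediateField.adjoin L⟮q.n⟯ {q.w}).algebraMap_mem
            (algebraMap L L⟮q.n⟯ (algebraMap (MvPolynomial (Fin 2) k) L (X 1)))
          rwa [← IsScalarTower.algebraMap_apply, hL, aeval_X] at h4
        have hN : q.n ∈ IntermediateField.adjoin L⟮q.n⟯ {q.w} :=
          (IntermediateField.adjoin L⟮q.n⟯ {q.w}).algebraMap_mem ⟨q.n, hn⟩
        have hW : q.w ∈ IntermediateField.adjoin L⟮q.n⟯ {q.w} :=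
          IntermediateField.mem_adjoin_simple_self _ q.w
        unfold comb
        refine sum_mem fun s _ => mul_mem (hk _) ?_
        unfold Quad.mon
        rw [Units.val_zpow_eq_zpow_val, Units.val_zpow_eq_zpow_val]
        refine mul_mem (mul_mem (zpow_mem hX _) (zpow_mem hY _)) ?_
        unfold Quad.e
        generalize s.2.2 = t
        fin_cases t
        · exact one_mem _
        · exact hN
        · exact hW
        · exact mul_mem hN hW
      obtain ⟨g, h, h0, h1⟩ := hF.frac f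
      have : f = comb (algebraMap k K) q.mon g / comb (algebraMap k K) q.mon h := by
        rw [← h1]; field_simp
      rw [this]
      exact div_mem (hmem g) (hmem h)
    have h3 : Algebra.IsSeparable L⟮q.n⟯ (IntermediateField.adjoin L⟮q.n⟯ {q.w}) :=
      (IntermediateField.isSeparable_adjoin_simple_iff_isSeparable _ K).mpr hsw
    rw [htop] at h3
    exact AlgEquiv.Algebra.isSeparable IntermediateField.topEquiv
  have hsep : Algebra.IsSeparable L K := Algebra.IsSeparable.trans L L⟮q.n⟯ K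
  have : Algebra.FormallyEtale (MvPolynomial (Fin 2) k) L :=
    .of_isLocalization (nonZeroDivisors _)
  have : Algebra.FormallyEtale L K := .of_isSeparable _ _
  have : Algebra.FormallyEtale (MvPolynomial (Fin 2) k) K :=
    .comp (MvPolynomial (Fin 2) k) L K
  let b := (KaehlerDifferential.mvPolynomialBasis k (Fin 2)).baseChange K
  let B := b.map (KaehlerDifferential.tensorKaehlerEquivOfFormallyEtale k
    (MvPolynomial (Fin 2) k) K)
  have hB : ∀ i, B i = KaehlerDifferential.D k K (vv q i) := by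
    intro i
    simp only [B, b, Module.Basis.map_apply, Module.Basis.baseChange_apply,
      KaehlerDifferential.mvPolynomialBasis_apply,
      KaehlerDifferential.tensorKaehlerEquivOfFormallyEtale_apply,
      KaehlerDifferential.mapBaseChange_tmul, one_smul, KaehlerDifferential.map_D]
    rw [hmap, aeval_X]
  exact ⟨B, hB 0, hB 1⟩

lemma b_ne (q : Quad K) (hF : FFM (algebraMap k K) q) :
    (q.X : K) ^ 5 + (q.Y : K) ^ 5 ≠ 0 := by
  intro h
  have h1 : aeval (vv q) (X 0 ^ 5 + X 1 ^ 5 : MvPolynomial (Fin 2) k) = 0 := by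
    simp only [vv, map_add, map_pow, aeval_X]
    exact h
  have h2 := (injective_iff_map_eq_zero _).mp (inj_aeval q hF.inj) _ h1
  have h3 := congrArg (MvPolynomial.eval ![(1 : k), 0]) h2
  simp at h3

end basis

section wedge

variable {k K : Type} [Field k] [Field K] [Algebra k K]

/-- The wedge product. -/
noncomputable def wd (u v : Ω[K⁄k]) : Forms k K := exteriorPower.ιMulti K 2 ![u, v]

lemma dd_eq (f g : K) :
    dd k f g = wd (KaehlerDifferential.D k K f) (KaehlerDifferential.D k K g) := rfl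

lemma wd_self (u : Ω[K⁄k]) : wd u u = 0 := by
  unfold wd
  exact (exteriorPower.ιMulti K 2 (M := Ω[K⁄k])).map_eq_zero_of_eq _ (i := 0) (j := 1)
    (by simp) (by decide)

lemma upd0 (v x : Ω[K⁄k]) : Function.update ![0, v] 0 x = ![x, v] := by
  funext i
  fin_cases i <;> simp [Function.update]

lemma upd1 (v x : Ω[K⁄k]) : Function.update ![v, 0] 1 x = ![v, x] := by
  funext i
  fin_cases i <;> simp [Function.update]

lemma wd_add_left (u u' v : Ω[K⁄k]) : wd (u + u') v = wd u v + wd u' v := by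
  unfold wd
  have h := (exteriorPower.ιMulti K 2 (M := Ω[K⁄k])).map_update_add ![0, v] 0 u u'
  rwa [upd0, upd0, upd0] at h

lemma wd_smul_left (c : K) (u v : Ω[K⁄k]) : wd (c • u) v = c • wd u v := by
  unfold wd
  have h := (exteriorPower.ιMulti K 2 (M := Ω[K⁄k])).map_update_smul ![0, v] 0 c u
  rwa [upd0, upd0] at h

lemma wd_add_right (u v v' : Ω[K⁄k]) : wd u (v + v') = wd u v + wd u v' := by
  unfold wd
  have h := (exteriorPower.ιMulti K 2 (M := Ω[K⁄k])).map_update_add ![u, 0] 1 v v'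
  rwa [upd1, upd1, upd1] at h

lemma wd_smul_right (c : K) (u v : Ω[K⁄k]) : wd u (c • v) = c • wd u v := by
  unfold wd
  have h := (exteriorPower.ιMulti K 2 (M := Ω[K⁄k])).map_update_smul ![u, 0] 1 c v
  rwa [upd1, upd1] at h

lemma wd_swap (u v : Ω[K⁄k]) : wd v u = -wd u v := by
  have h := wd_self (u + v)
  rw [wd_add_left, wd_add_right, wd_add_right, wd_self, wd_self, zero_add, add_zero] at h
  exact (neg_eq_of_add_eq_zero_right h).symm

lemma wd_zero_left (v : Ω[K⁄k]) : wd 0 v = 0 := by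
  have h := wd_smul_left (0 : K) (0 : Ω[K⁄k]) v
  simpa using h

lemma wd_sum_left {I : Type} (s : Finset I) (c : I → K) (u : I → Ω[K⁄k]) (v : Ω[K⁄k]) :
    wd (∑ i ∈ s, c i • u i) v = ∑ i ∈ s, c i • wd (u i) v := by
  classical
  induction s using Finset.induction_on with
  | empty => simpa using wd_zero_left v
  | insert a s ha ih =>
    rw [Finset.sum_insert ha, Finset.sum_insert ha, wd_add_left, wd_smul_left, ih]

lemma one_dim (B : Module.Basis (Fin 2) K (Ω[K⁄k])) : wd (B 0) (B 1) ≠ 0 ∧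
    ∀ ω : Forms k K, ∃ c : K, ω = c • wd (B 0) (B 1) := by
  have hne : wd (B 0) (B 1) ≠ 0 := by
    intro h
    have h1 := exteriorPower.alternatingMapLinearEquiv_apply_ιMulti B.det ![B 0, B 1]
    have h2 : (![B 0, B 1] : Fin 2 → Ω[K⁄k]) = B := by
      funext i
      fin_cases i <;> rfl
    unfold wd at h
    rw [h, map_zero, h2, B.det_self] at h1
    exact zero_ne_one h1
  refine ⟨hne, ?_⟩
  have hfin : Module.finrank K (Forms k K) = 1 := by
    have : Module.Finite K (Ω[K⁄k]) := Module.Finite.of_basis B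
    rw [exteriorPower.finrank_eq, Module.finrank_eq_card_basis B]
    simp
  intro ω
  obtain ⟨c, hc⟩ := (finrank_eq_one_iff_of_nonzero' _ hne).mp hfin ω
  exact ⟨c, hc.symm⟩

lemma D_aeval (T : Fin 4 → K) (p : MvPolynomial (Fin 4) k) :
    KaehlerDifferential.D k K (aeval T p)
      = ∑ l, aeval T (pderiv l p) • KaehlerDifferential.D k K (T l) := by
  classical
  induction p using MvPolynomial.induction_on with
  | C a => simp
  | add p p' hp hp' =>
    rw [map_add, map_add, hp, hp', ← Finset.sum_add_distrib]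
    refine Finset.sum_congr rfl fun l _ => ?_
    rw [map_add, map_add, add_smul]
  | mul_X p i hp =>
    rw [map_mul, Derivation.leibniz, hp, aeval_X, Finset.smul_sum]
    have h1 : ∀ l, aeval T (pderiv l (p * X i)) • KaehlerDifferential.D k K (T l)
        = T i • aeval T (pderiv l p) • KaehlerDifferential.D k K (T l)
          + (if i = l then aeval T p • KaehlerDifferential.D k K (T l) else 0) := by
      intro l
      rw [Derivation.leibniz, smul_eq_mul, smul_eq_mul, pderiv_X, map_add, map_mul, map_mul,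
        aeval_X, add_smul, mul_smul, mul_smul, add_comm]
      congr 1
      by_cases hl : i = l
      · subst hl; simp
      · rw [Pi.single_eq_of_ne hl]
        simp [hl]
    simp only [h1]
    rw [Finset.sum_add_distrib, add_comm]
    simp

end wedge

lemma w1 {k K : Type} [Field k] [Field K] [Algebra k K] (X Y : K) :
    wd (KaehlerDifferential.D k K (X * Y⁻¹)) (KaehlerDifferential.D k K Y⁻¹)
      = (-(Y⁻¹) ^ 3) • wd (KaehlerDifferential.D k K X) (KaehlerDifferential.D k K Y) := by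
  have h1 : KaehlerDifferential.D k K Y⁻¹ = (-(Y⁻¹) ^ 2) • KaehlerDifferential.D k K Y :=
    Derivation.leibniz_inv _ _
  rw [Derivation.leibniz, wd_add_left, wd_smul_left, wd_smul_left, wd_self, smul_zero, zero_add,
    h1, wd_smul_right, smul_smul]
  congr 1
  ring

lemma w0 {k K : Type} [Field k] [Field K] [Algebra k K] (X Y : K) :
    wd (KaehlerDifferential.D k K (Y * X⁻¹)) (KaehlerDifferential.D k K X⁻¹)
      = ((X⁻¹) ^ 3) • wd (KaehlerDifferential.D k K X) (KaehlerDifferential.D k K Y) := by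
  rw [w1, wd_swap (KaehlerDifferential.D k K X), smul_neg, neg_smul, neg_neg]

/-- Elimination. -/
lemma elim {K : Type} [Field K] (h2 : (2 : K) = 0) (a b : Fin 4 → K) (c : Fin 4 → Fin 4 → K)
    (g : K) (hc0 : ∀ i, c i i = 0) (hcs : ∀ i j, c i j = c j i)
    (ha : ∀ i, ∑ l, a l * c l i = 0) (hb : ∀ i, ∑ l, b l * c l i = 0)
    (h01 : c 0 1 = g * (a 2 * b 3 - a 3 * b 2)) (hne : a 2 * b 3 - a 3 * b 2 ≠ 0) :
    c 0 1 = g * (a 2 * b 3 - a 3 * b 2) ∧ c 0 2 = g * (a 1 * b 3 - a 3 * b 1) ∧
    c 0 3 = g * (a 1 * b 2 - a 2 * b 1) ∧ c 1 2 = g * (a 0 * b 3 - a 3 * b 0) ∧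
    c 1 3 = g * (a 0 * b 2 - a 2 * b 0) ∧ c 2 3 = g * (a 0 * b 1 - a 1 * b 0) := by
  simp only [Fin.sum_univ_four] at ha hb
  have A0 := ha 0
  have A1 := ha 1
  have A2 := ha 2
  have A3 := ha 3
  have B0 := hb 0
  have B1 := hb 1
  have B2 := hb 2
  have B3 := hb 3
  rw [hc0, hcs 1 0, hcs 2 0, hcs 3 0] at A0 B0
  rw [hc0, hcs 2 1, hcs 3 1] at A1 B1
  rw [hc0, hcs 3 2] at A2 B2
  rw [hc0] at A3 B3
  have e02 : c 0 2 = g * (a 1 * b 3 - a 3 * b 1) := by
    apply mul_left_cancel₀ hne
    linear_combination b 3 * A0 - a 3 * B0 - (a 1 * b 3 - a 3 * b 1) * h01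
      - (a 1 * b 3 - a 3 * b 1) * g * (a 2 * b 3 - a 3 * b 2) * h2
  have e03 : c 0 3 = g * (a 1 * b 2 - a 2 * b 1) := by
    apply mul_left_cancel₀ hne
    linear_combination -(b 2) * A0 + a 2 * B0 + (a 1 * b 2 - a 2 * b 1) * h01
  have e12 : c 1 2 = g * (a 0 * b 3 - a 3 * b 0) := by
    apply mul_left_cancel₀ hne
    linear_combination b 3 * A1 - a 3 * B1 - (a 0 * b 3 - a 3 * b 0) * h01
      - (a 0 * b 3 - a 3 * b 0) * g * (a 2 * b 3 - a 3 * b 2) * h2
  have e13 : c 1 3 = g * (a 0 * b 2 - a 2 * b 0) := by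
    apply mul_left_cancel₀ hne
    linear_combination -(b 2) * A1 + a 2 * B1 + (a 0 * b 2 - a 2 * b 0) * h01
  refine ⟨h01, e02, e03, e12, e13, ?_⟩
  apply mul_left_cancel₀ hne
  linear_combination b 3 * (A3 - a 0 * e03 - a 1 * e13) - b 2 * (A2 - a 0 * e02 - a 1 * e12)
    - g * a 1 * (b 3 * (a 0 * b 2 - a 2 * b 0) - b 2 * (a 0 * b 3 - a 3 * b 0)) * h2

end ETA

/-- The 2-form `η` and the residue formulas on the three charts. -/
theorem eta : T_ETA := by
  intro k K _ _ _ q h2 hF
  have h2K : (2 : K) = 0 := by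
    have := congrArg (algebraMap k K) h2
    rwa [map_ofNat, map_zero] at this
  have hb := ETA.b_ne q hF
  obtain ⟨B, hB0, hB1⟩ := ETA.basis q h2 hF hb
  obtain ⟨hne, hdim⟩ := ETA.one_dim B
  rw [hB0, hB1] at hne hdim
  have hX : (q.X : K) ≠ 0 := q.X.ne_zero
  have hY : (q.Y : K) ≠ 0 := q.Y.ne_zero
  set N : K := (q.X : K) * q.Y * ((q.X : K) ^ 5 + (q.Y : K) ^ 5) with hN
  have hN0 : N ≠ 0 := mul_ne_zero (mul_ne_zero hX hY) hb
  set θ : Forms k K := ETA.wd (KaehlerDifferential.D k K q.X) (KaehlerDifferential.D k K q.Y)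
    with hθ
  have hη0 : N⁻¹ • θ ≠ 0 := smul_ne_zero (inv_ne_zero hN0) hne
  have hθη : θ = N • (N⁻¹ • θ) := by
    rw [smul_smul, mul_inv_cancel₀ hN0, one_smul]
  have hdim' : ∀ ω : Forms k K, ∃ c : K, ω = c • (N⁻¹ • θ) := by
    intro ω
    obtain ⟨c, hc⟩ := hdim ω
    refine ⟨c * N, ?_⟩
    rw [mul_smul, ← hθη]
    exact hc
  refine ⟨N⁻¹ • θ, hη0, hdim', ?_⟩
  set η := N⁻¹ • θ with hη
  have hcan : ∀ c c' : K, c • η = c' • η → c = c' := fun c c' h => smul_left_injective K hη0 h
  have key : ∀ r : Fin 3, dd k (q.chart r 0) (q.chart r 1)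
      = (q.gen r * (aeval (q.chart r) (pderiv 2 (G1 k r)) * aeval (q.chart r) (pderiv 3 (G2 k r))
        - aeval (q.chart r) (pderiv 3 (G1 k r)) * aeval (q.chart r) (pderiv 2 (G2 k r)))) • η ∧
      aeval (q.chart r) (pderiv 2 (G1 k r)) * aeval (q.chart r) (pderiv 3 (G2 k r))
        - aeval (q.chart r) (pderiv 3 (G1 k r)) * aeval (q.chart r) (pderiv 2 (G2 k r)) ≠ 0 := by
    intro r
    have hw0 := ETA.w0 (k := k) (q.X : K) (q.Y : K)
    have hw1 := ETA.w1 (k := k) (q.X : K) (q.Y : K)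
    have hneg : ∀ z : K, -z = z := fun z => by linear_combination (-z) * h2K
    have conc : ∀ (r : Fin 3) (c : K), dd k (q.chart r 0) (q.chart r 1) = c • θ →
        c ≠ 0 → c * N = q.gen r * (aeval (q.chart r) (pderiv 2 (G1 k r))
        * aeval (q.chart r) (pderiv 3 (G2 k r))
        - aeval (q.chart r) (pderiv 3 (G1 k r)) * aeval (q.chart r) (pderiv 2 (G2 k r))) →
        dd k (q.chart r 0) (q.chart r 1)
      = (q.gen r * (aeval (q.chart r) (pderiv 2 (G1 k r)) * aeval (q.chart r) (pderiv 3 (G2 k r))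
        - aeval (q.chart r) (pderiv 3 (G1 k r)) * aeval (q.chart r) (pderiv 2 (G2 k r)))) • η ∧
      aeval (q.chart r) (pderiv 2 (G1 k r)) * aeval (q.chart r) (pderiv 3 (G2 k r))
        - aeval (q.chart r) (pderiv 3 (G1 k r)) * aeval (q.chart r) (pderiv 2 (G2 k r)) ≠ 0 := by
      intro r c h3 h4 h5
      constructor
      · rw [← h5, h3, mul_smul, ← hθη]
      · intro h6
        rw [h6, mul_zero] at h5
        exact mul_ne_zero h4 hN0 h5
    fin_cases r
    · refine conc 0 ((q.X : K)⁻¹ ^ 3) ?_ (pow_ne_zero _ (inv_ne_zero hX)) ?_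
      · simpa [Quad.chart, ETA.dd_eq] using hw0
      · simp [G1, G2, Quad.chart, Quad.gen, hN]
        simp only [h2K, zero_mul, zero_add]
        field_simp
    · refine conc 1 (-(q.Y : K)⁻¹ ^ 3) ?_ (neg_ne_zero.mpr (pow_ne_zero _ (inv_ne_zero hY))) ?_
      · simpa [Quad.chart, ETA.dd_eq] using hw1
      · simp [G1, G2, Quad.chart, Quad.gen, hN]
        rw [hneg]
        simp only [h2K, zero_mul, zero_add]
        field_simp
    · refine conc 2 1 ?_ one_ne_zero ?_
      · simp [Quad.chart, ETA.dd_eq, hθ]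
      · simp [G1, G2, Quad.chart, Quad.gen, hN]
        simp only [h2K, zero_mul, zero_add]
  intro r
  obtain ⟨k1, k2⟩ := key r
  choose cc hcc using fun i j => hdim' (dd k (q.chart r i) (q.chart r j))
  have hc0 : ∀ i, cc i i = 0 := by
    intro i
    apply hcan
    rw [← hcc, zero_smul, ETA.dd_eq, ETA.wd_self]
  have hcs : ∀ i j, cc i j = cc j i := by
    intro i j
    have h3 : cc i j = -cc j i := by
      apply hcan
      have h5 : -(cc j i • η) = (-cc j i) • η := (neg_smul _ _).symm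
      rw [← hcc, ← h5, ← hcc, ETA.dd_eq, ETA.dd_eq, ETA.wd_swap]
    rw [h3]
    linear_combination (-cc j i) * h2K
  have hrel : ∀ G : MvPolynomial (Fin 4) k, aeval (q.chart r) G = 0 →
      ∀ i, ∑ l, aeval (q.chart r) (pderiv l G) * cc l i = 0 := by
    intro G hG i
    apply hcan
    have h3 := ETA.D_aeval (q.chart r) G
    rw [hG, map_zero] at h3
    have h4 := ETA.wd_sum_left Finset.univ (fun l => aeval (q.chart r) (pderiv l G))
      (fun l => KaehlerDifferential.D k K (q.chart r l)) (KaehlerDifferential.D k K (q.chart r i))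
    rw [← h3, ETA.wd_zero_left] at h4
    rw [zero_smul, Finset.sum_smul, h4]
    refine Finset.sum_congr rfl fun l _ => ?_
    rw [mul_smul, ← hcc, ETA.dd_eq]
  have hG := PRES.eval_G (algebraMap k K) q h2 hF.rel r
  obtain ⟨e01, e02, e03, e12, e13, e23⟩ := ETA.elim h2K
    (fun l => aeval (q.chart r) (pderiv l (G1 k r))) (fun l => aeval (q.chart r) (pderiv l (G2 k r)))
    cc (q.gen r) hc0 hcs (hrel _ hG.1) (hrel _ hG.2) (by apply hcan; rw [← hcc]; exact k1) k2
  have hmin : ∀ i' j', MvPolynomial.eval₂ (algebraMap k K) (q.chart r) (minor k r i' j')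
      = aeval (q.chart r) (pderiv i' (G1 k r)) * aeval (q.chart r) (pderiv j' (G2 k r))
        - aeval (q.chart r) (pderiv j' (G1 k r)) * aeval (q.chart r) (pderiv i' (G2 k r)) := by
    intro i' j'
    rw [← aeval_def]
    simp only [minor, map_sub, map_mul]
  intro i j hij
  have fin : ∀ i j i' j' : Fin 4, ({i, j, i', j'} : Finset (Fin 4)) = Finset.univ →
      cc i j = q.gen r * (aeval (q.chart r) (pderiv i' (G1 k r))
        * aeval (q.chart r) (pderiv j' (G2 k r))
        - aeval (q.chart r) (pderiv j' (G1 k r)) * aeval (q.chart r) (pderiv i' (G2 k r))) →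
      ∃ i' j' : Fin 4, ({i, j, i', j'} : Finset (Fin 4)) = Finset.univ ∧
        dd k (q.chart r i) (q.chart r j)
          = (q.gen r * MvPolynomial.eval₂ (algebraMap k K) (q.chart r) (minor k r i' j')) • η := by
    intro i j i' j' hu h
    refine ⟨i', j', hu, ?_⟩
    rw [hcc, h, hmin]
  fin_cases i <;> fin_cases j
  · exact absurd rfl hij
  · exact fin 0 1 2 3 (by decide) e01
  · exact fin 0 2 1 3 (by decide) e02
  · exact fin 0 3 1 2 (by decide) e03
  · exact fin 1 0 2 3 (by decide) (by rw [hcs]; exact e01)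
  · exact absurd rfl hij
  · exact fin 1 2 0 3 (by decide) e12
  · exact fin 1 3 0 2 (by decide) e13
  · exact fin 2 0 1 3 (by decide) (by rw [hcs]; exact e02)
  · exact fin 2 1 0 3 (by decide) (by rw [hcs]; exact e12)
  · exact absurd rfl hij
  · exact fin 2 3 0 1 (by decide) e23
  · exact fin 3 0 1 2 (by decide) (by rw [hcs]; exact e03)
  · exact fin 3 1 0 2 (by decide) (by rw [hcs]; exact e13)
  · exact fin 3 2 0 1 (by decide) (by rw [hcs]; exact e23)
  · exact absurd rfl hij

end Pool.Agent.H1.CM
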