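import Mathlib
import Pool.Agent.H1.CM.Targets2

/-!
# SMOA: Jacobian criterion for two equations in four variables
-/

namespace Pool.Agent.H1.CM

open MvPolynomial

namespace SMOA

variable {k R : Type} [Field k] [CommRing R] [Algebra k R]

/-- The presentation of `R` with the variables `i, j` attached to the two relations. -/
noncomputable def pres (g1 g2 : MvPolynomial (Fin 4) k) (T : Fin 4 → R)
    (hs : Function.Surjective (MvPolynomial.aeval (R := k) T))
    (hk : ∀ p : MvPolynomial (Fin 4) k, MvPolynomial.aeval T p = 0 ↔ p ∈ Ideal.span {g1, g2})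
    (i j : Fin 4) (hij : i ≠ j) : Algebra.PreSubmersivePresentation k R (Fin 4) (Fin 2) where
  toGenerators := Algebra.Generators.ofSurjective T hs
  relation := ![g1, g2]
  span_range_relation_eq_ker := by
    ext p
    rw [Algebra.Generators.ker_eq_ker_aeval_val, RingHom.mem_ker]
    have h1 : Set.range ![g1, g2] = ({g1, g2} : Set (MvPolynomial (Fin 4) k)) := by
      ext x
      simp only [Set.mem_range, Set.mem_insert_iff, Set.mem_singleton_iff]
      constructor
      · rintro ⟨a, rfl⟩
        fin_cases a
        · exact Or.inl rfl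
        · exact Or.inr rfl
      · rintro (rfl | rfl)
        · exact ⟨0, rfl⟩
        · exact ⟨1, rfl⟩
    have h2 : (Ideal.span (Set.range ![g1, g2]) : Ideal (MvPolynomial (Fin 4) k))
        = Ideal.span {g1, g2} := by rw [h1]
    exact (h2 ▸ (hk p).symm)
  map := ![i, j]
  map_inj := by
    intro a b hab
    fin_cases a <;> fin_cases b
    · rfl
    · exact absurd hab hij
    · exact absurd hab.symm hij
    · rfl

lemma pres_jacobian (g1 g2 : MvPolynomial (Fin 4) k) (T : Fin 4 → R)
    (hs : Function.Surjective (MvPolynomial.aeval (R := k) T))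
    (hk : ∀ p : MvPolynomial (Fin 4) k, MvPolynomial.aeval T p = 0 ↔ p ∈ Ideal.span {g1, g2})
    (i j : Fin 4) (hij : i ≠ j) :
    (pres g1 g2 T hs hk i j hij).jacobian = MvPolynomial.aeval T
    (MvPolynomial.pderiv i g1 * MvPolynomial.pderiv j g2
      - MvPolynomial.pderiv j g1 * MvPolynomial.pderiv i g2) := by
  rw [Algebra.PreSubmersivePresentation.jacobian_eq_jacobiMatrix_det,
    Algebra.Generators.algebraMap_apply, Matrix.det_fin_two]
  simp only [Algebra.PreSubmersivePresentation.jacobiMatrix_apply]
  have h5 : MvPolynomial.pderiv i g1 * MvPolynomial.pderiv j g2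
      - MvPolynomial.pderiv j g1 * MvPolynomial.pderiv i g2
      = MvPolynomial.pderiv i g1 * MvPolynomial.pderiv j g2
      - MvPolynomial.pderiv i g2 * MvPolynomial.pderiv j g1 := by ring
  rw [h5]
  rfl

lemma std_of (g1 g2 : MvPolynomial (Fin 4) k) (T : Fin 4 → R)
    (hs : Function.Surjective (MvPolynomial.aeval (R := k) T))
    (hk : ∀ p : MvPolynomial (Fin 4) k, MvPolynomial.aeval T p = 0 ↔ p ∈ Ideal.span {g1, g2})
    (i j : Fin 4) (hij : i ≠ j) (D : R) (hD : D = MvPolynomial.aeval T
    (MvPolynomial.pderiv i g1 * MvPolynomial.pderiv j g2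
      - MvPolynomial.pderiv j g1 * MvPolynomial.pderiv i g2)) :
    RingHom.IsStandardSmoothOfRelativeDimension 2
      ((algebraMap R (Localization.Away D)).comp (algebraMap k R)) := by
  rw [← IsScalarTower.algebraMap_eq, RingHom.isStandardSmoothOfRelativeDimension_algebraMap]
  let P0 := pres g1 g2 T hs hk i j hij
  have hJ : P0.jacobian = D := by rw [hD]; exact pres_jacobian g1 g2 T hs hk i j hij
  have hu : IsUnit (algebraMap R (Localization.Away D) D) :=
    IsLocalization.Away.algebraMap_isUnit _
  let P : Algebra.SubmersivePresentation k (Localization.Away D) _ _ :=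
    { toPreSubmersivePresentation :=
        .comp (.localizationAway (Localization.Away D) D) P0,
      jacobian_isUnit := by
        rw [Algebra.PreSubmersivePresentation.comp_jacobian_eq_jacobian_smul_jacobian, hJ,
          Algebra.PreSubmersivePresentation.localizationAway_jacobian, Algebra.smul_def]
        exact hu.mul hu }
  exact ⟨_, _, inferInstance, inferInstance, P, by
    simp only [Algebra.PreSubmersivePresentation.dimension_comp_eq_dimension_add_dimension, P]
    simp [Algebra.Presentation.dimension]⟩

end SMOA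

/-- Jacobian criterion for two equations in four variables. -/
theorem smoa : T_SMOA := by
  intro k R _ _ _ g1 g2 T hs hk hspan
  let f : Fin 4 × Fin 4 → R := fun p => MvPolynomial.aeval T
    (MvPolynomial.pderiv p.1 g1 * MvPolynomial.pderiv p.2 g2
      - MvPolynomial.pderiv p.2 g1 * MvPolynomial.pderiv p.1 g2)
  refine ⟨f '' {p | p.1 ≠ p.2}, ?_, ?_⟩
  · rw [eq_top_iff, ← hspan, Ideal.span_le]
    rintro _ ⟨⟨i, j⟩, rfl⟩
    by_cases hij : i = j
    · subst hij
      have : (fun p : Fin 4 × Fin 4 => MvPolynomial.aeval (R := k) T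
          (MvPolynomial.pderiv p.1 g1 * MvPolynomial.pderiv p.2 g2
            - MvPolynomial.pderiv p.2 g1 * MvPolynomial.pderiv p.1 g2)) (i, i) = 0 := by
        simp
      rw [this]
      exact Ideal.zero_mem _
    · exact Ideal.subset_span ⟨(i, j), hij, rfl⟩
  · rintro _ ⟨⟨i, j⟩, hij, rfl⟩
    exact SMOA.std_of g1 g2 T hs hk i j hij _ rfl

end Pool.Agent.H1.CM
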